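import Pool.Agent.Helper920_ET0L.Main

/-! The hierarchy of k-restricted ET0L languages collapses from level 3 on. -/

namespace Pool.Agent.Results.MP_4de4a9_lc.CollapseAtThree

open Pool.Agent.Helper920_ET0L

/-- For every `k ≥ 3` the `k`-restricted ET0L systems generate the same languages as the
`(k+1)`-restricted ones, namely all ET0L languages. -/
theorem result (T : Type) (k : ℕ) (hk : 3 ≤ k) :
    Family T k = Family T (k + 1) ∧ Family T k = {L | ∃ G : LSys T, G.lang = L} := by
  have key : ∀ n, 3 ≤ n → Family T n = {L | ∃ G : LSys T, G.lang = L} := by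
    intro n hn
    ext L
    constructor
    · rintro ⟨G, _, hG⟩
      exact ⟨G, hG⟩
    · rintro ⟨G, rfl⟩
      obtain ⟨G', hr, hG'⟩ := mem_family_three G
      exact ⟨G', hr.mono hn, hG'⟩
  exact ⟨(key k hk).trans (key (k + 1) (by omega)).symm, key k hk⟩

end Pool.Agent.Results.MP_4de4a9_lc.CollapseAtThree
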